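import Pool.Agent.Helper92.Ru.GoalsW

/-! Subadditivity of `S_m` (part W4 of MP_d1d051_nt). -/

set_option autoImplicit false

open MvPolynomial

namespace Pool.Agent.Helper27.Ru

open Pool.Agent.Helper92.Ru

variable {k : Type} [Field k] {d n : ℕ}

/-- multihomogeneous of multidegree `w` -/
def MH (w : Fin d → ℕ) (f : BB k d n) : Prop :=
  ∀ e ∈ f.support, ∀ j : Fin d, ∑ i : Fin (n + 1), e (j, i) = w j

theorem MH.mul {w w' : Fin d → ℕ} {f g : BB k d n} (hf : MH w f) (hg : MH w' g) :
    MH (fun j => w j + w' j) (f * g) := by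
  classical
  intro e he j
  have := MvPolynomial.support_mul f g he
  obtain ⟨e1, h1, e2, h2, rfl⟩ := Finset.mem_add.1 this
  simp only [Finsupp.add_apply, Finset.sum_add_distrib]
  rw [hf e1 h1 j, hg e2 h2 j]

theorem MH.add {w : Fin d → ℕ} {f g : BB k d n} (hf : MH w f) (hg : MH w g) :
    MH w (f + g) := by
  classical
  intro e he j
  rcases Finset.mem_union.1 (MvPolynomial.support_add he) with h | h
  · exact hf e h j
  · exact hg e h j

theorem MH.zero (w : Fin d → ℕ) : MH w (0 : BB k d n) := by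
  intro e he
  simp at he

theorem MH.sum {ι : Type} {w : Fin d → ℕ} (s : Finset ι) (f : ι → BB k d n)
    (h : ∀ i ∈ s, MH w (f i)) : MH w (∑ i ∈ s, f i) := by
  classical
  induction s using Finset.induction_on with
  | empty => simpa using MH.zero w
  | insert i s hi ih =>
    rw [Finset.sum_insert hi]
    exact (h i (Finset.mem_insert_self _ _)).add
      (ih fun j hj => h j (Finset.mem_insert_of_mem hj))

theorem MH.one : MH (fun _ => 0) (1 : BB k d n) := by
  classical
  intro e he j
  rw [← C_1, MvPolynomial.mem_support_iff, MvPolynomial.coeff_C] at he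
  have : e = 0 := by
    by_contra hne
    exact he (if_neg fun h => hne h.symm)
  subst this
  simp

theorem MH.linear (a : Fin (n + 1) → k) (j : Fin d) :
    MH (fun j' => if j' = j then 1 else 0)
      (∑ t : Fin (n + 1), C (a t) * X (j, t) : BB k d n) := by
  classical
  refine MH.sum _ _ fun t _ => ?_
  intro e he j'
  rw [MvPolynomial.mem_support_iff, MvPolynomial.coeff_C_mul, MvPolynomial.coeff_X] at he
  have : e = Finsupp.single (j, t) 1 := by
    by_contra hne
    apply he
    rw [if_neg fun h => hne h.symm, mul_zero]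
  subst this
  change ∑ i : Fin (n + 1), (Finsupp.single (j, t) 1 : Fin d × Fin (n + 1) →₀ ℕ) (j', i) =
    if j' = j then 1 else 0
  by_cases h : j' = j
  · subst h
    rw [if_pos rfl, Finset.sum_eq_single t]
    · simp
    · intro b _ hb
      rw [Finsupp.single_apply, if_neg]
      intro h
      exact hb (Prod.mk.inj h).2.symm
    · intro h
      exact absurd (Finset.mem_univ t) h
  · rw [if_neg h]
    refine Finset.sum_eq_zero fun b _ => ?_
    rw [Finsupp.single_apply, if_neg]
    intro h'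
    exact h (Prod.mk.inj h').1.symm

theorem MH.prodLinear (a : Fin (n + 1) → k) (s : Finset (Fin d)) :
    MH (fun j' => if j' ∈ s then 1 else 0)
      (∏ j ∈ s, ∑ t : Fin (n + 1), C (a t) * X (j, t) : BB k d n) := by
  classical
  induction s using Finset.induction_on with
  | empty => simpa using (MH.one : MH (fun _ => 0) (1 : BB k d n))
  | insert i s hi ih =>
    rw [Finset.prod_insert hi]
    have := (MH.linear (d := d) a i).mul ih
    intro e he j'
    rw [this e he j']
    by_cases h1 : j' = i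
    · subst h1
      simp [hi]
    · simp [h1]

theorem Rm_mul {a b : ℕ} {f g : BB k d n} (hf : f ∈ Rm k d n a) (hg : g ∈ Rm k d n b) :
    f * g ∈ Rm k d n (a + b) := by
  refine ⟨?_, fun π => ?_⟩
  · have h1 : MH (fun _ => a) f := hf.1
    have h2 : MH (fun _ => b) g := hg.1
    exact h1.mul h2
  · rw [map_mul, hf.2, hg.2]

theorem Rm_one : (1 : BB k d n) ∈ Rm k d n 0 :=
  ⟨MH.one, fun _ => map_one _⟩

theorem Nl_mem (a : Fin (n + 1) → k) : Nl d a ∈ Rm k d n 1 := by
  classical
  refine ⟨?_, fun π => ?_⟩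
  · have := MH.prodLinear (d := d) a Finset.univ
    intro e he j
    have h2 := this e he j
    simpa using h2
  · unfold Nl
    rw [map_prod]
    rw [← Equiv.prod_comp π (fun j : Fin d => ∑ t : Fin (n + 1), C (a t) * X (j, t))]
    refine Finset.prod_congr rfl fun j _ => ?_
    rw [map_sum]
    refine Finset.sum_congr rfl fun t _ => ?_
    rw [map_mul]
    simp [permB]

theorem Rm_pow {a : ℕ} {f : BB k d n} (hf : f ∈ Rm k d n a) (r : ℕ) :
    f ^ r ∈ Rm k d n (r * a) := by
  induction r with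
  | zero => simpa using (Rm_one : (1 : BB k d n) ∈ Rm k d n 0)
  | succ r ih =>
    rw [pow_succ]
    have := Rm_mul ih hf
    rwa [← Nat.succ_mul] at this

theorem Rm_prod {q : ℕ} (a : Fin q → Fin (n + 1) → k) (α : Fin q → ℕ) (s : Finset (Fin q)) :
    (∏ i ∈ s, Nl d (a i) ^ α i) ∈ Rm k d n (∑ i ∈ s, α i) := by
  classical
  induction s using Finset.induction_on with
  | empty => simpa using (Rm_one : (1 : BB k d n) ∈ Rm k d n 0)
  | insert i s hi ih =>
    rw [Finset.prod_insert hi, Finset.sum_insert hi]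
    have h := Rm_pow (Nl_mem (d := d) (a i)) (α i)
    rw [mul_one] at h
    exact Rm_mul h ih

/-- a generator of the filtration lies in `R_m` -/
theorem gen_mem {q : ℕ} (a : Fin q → Fin (n + 1) → k) (α : Fin q → ℕ) (m : ℕ) (g : BB k d n)
    (hα : ∑ i, α i ≤ m) (hg : g ∈ Rm k d n (m - ∑ i, α i)) :
    (∏ i, Nl d (a i) ^ α i) * g ∈ Rm k d n m := by
  have := Rm_mul (Rm_prod a α Finset.univ) hg
  rwa [Nat.add_sub_of_le hα] at this

theorem Fil_le {q : ℕ} (a : Fin q → Fin (n + 1) → k) (lam : Fin q → ℕ) (t m : ℕ) :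
    Fil d a lam t m ≤ Rm k d n m := by
  refine Submodule.span_le.2 ?_
  rintro f ⟨α, g, h1, h2, h3, rfl⟩
  exact gen_mem a α m g h1 h3

theorem Fil_zero {q : ℕ} (a : Fin q → Fin (n + 1) → k) (lam : Fin q → ℕ) (m : ℕ) :
    Fil d a lam 0 m = Rm k d n m := by
  refine le_antisymm (Fil_le a lam 0 m) ?_
  intro f hf
  refine Submodule.subset_span ⟨fun _ => 0, f, ?_, Nat.zero_le _, ?_, ?_⟩
  · simp
  · simpa using hf
  · simp

theorem Fil_anti {q : ℕ} (a : Fin q → Fin (n + 1) → k) (lam : Fin q → ℕ) (m : ℕ) {s t : ℕ}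
    (h : s ≤ t) : Fil d a lam t m ≤ Fil d a lam s m := by
  refine Submodule.span_mono ?_
  rintro f ⟨α, g, h1, h2, h3, rfl⟩
  exact ⟨α, g, h1, h.trans h2, h3, rfl⟩

theorem Fil_bot {q : ℕ} (a : Fin q → Fin (n + 1) → k) (lam : Fin q → ℕ) (m t : ℕ)
    (h : m * ∑ i, lam i < t) : Fil d a lam t m = ⊥ := by
  refine eq_bot_iff.2 (Submodule.span_le.2 ?_)
  rintro f ⟨α, g, h1, h2, h3, rfl⟩
  exfalso
  have h4 : ∑ i, α i * lam i ≤ m * ∑ i, lam i := by
    rw [Finset.mul_sum]
    refine Finset.sum_le_sum fun i _ => Nat.mul_le_mul_right _ ?_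
    exact (Finset.single_le_sum (f := α) (fun _ _ => Nat.zero_le _) (Finset.mem_univ i)).trans h1
  omega

/-- `R_m` is finite dimensional -/
theorem finite_Rm (m : ℕ) : FiniteDimensional k (Rm k d n m) := by
  classical
  have hfin : ({e : Fin d × Fin (n + 1) →₀ ℕ | ∀ p, e p ≤ m}).Finite := by
    refine Set.Finite.of_injOn
      (f := fun e : Fin d × Fin (n + 1) →₀ ℕ => (e : Fin d × Fin (n + 1) → ℕ))
      (t := Set.pi Set.univ fun _ => Set.Iic m) ?_ ?_ ?_
    · intro e he
      simp only [Set.mem_pi, Set.mem_univ, Set.mem_Iic, true_implies]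
      exact he
    · intro e _ e' _ h
      exact DFunLike.coe_injective h
    · exact Set.Finite.pi fun _ => Set.finite_Iic m
  have h1 : FiniteDimensional k
      (MvPolynomial.restrictSupport k {e : Fin d × Fin (n + 1) →₀ ℕ | ∀ p, e p ≤ m}) := by
    have : Finite ({e : Fin d × Fin (n + 1) →₀ ℕ | ∀ p, e p ≤ m}) := hfin
    exact Module.Finite.of_basis (MvPolynomial.basisRestrictSupport k
      {e : Fin d × Fin (n + 1) →₀ ℕ | ∀ p, e p ≤ m})
  refine Submodule.finiteDimensional_of_le (S₂ := MvPolynomial.restrictSupport k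
      {e : Fin d × Fin (n + 1) →₀ ℕ | ∀ p, e p ≤ m}) ?_
  intro f hf
  rw [MvPolynomial.mem_restrictSupport_iff]
  intro e he p
  have h2 := hf.1 e he p.1
  rw [← h2]
  exact Finset.single_le_sum (f := fun i => e (p.1, i)) (fun _ _ => Nat.zero_le _)
    (Finset.mem_univ p.2)

theorem subAdd (hTF : TwoFil) : SubAdd := by
  classical
  intro k _ d n q a V _ _ φ lam mu m
  have hfinR : FiniteDimensional k (Rm k d n m) := finite_Rm m
  set U : Submodule k V := (Rm k d n m).map φ with hU
  have hfinU : FiniteDimensional k U := by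
    rw [hU]
    infer_instance
  have hle : ∀ (l : Fin q → ℕ) (s : ℕ), (Fil d a l s m).map φ ≤ U := fun l s =>
    Submodule.map_mono (Fil_le a l s m)
  let F : (Fin q → ℕ) → ℕ → Submodule k U := fun l s => ((Fil d a l s m).map φ).submoduleOf U
  have hF : ∀ (l : Fin q → ℕ) (s : ℕ),
      Module.finrank k (F l s) = Module.finrank k ((Fil d a l s m).map φ) := fun l s =>
    LinearEquiv.finrank_eq (Submodule.submoduleOfEquivOfLe (hle l s))
  have hanti : ∀ l, Antitone (F l) := by
    intro l s t hst x hx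
    exact Submodule.map_mono (Fil_anti a l m hst) hx
  have hzero : ∀ l, F l 0 = ⊤ := by
    intro l
    refine eq_top_iff.2 ?_
    intro x _
    change x.1 ∈ (Fil d a l 0 m).map φ
    rw [Fil_zero]
    exact x.2
  have hbot : ∀ l : Fin q → ℕ, F l (m * ∑ i, l i + 1) = ⊥ := by
    intro l
    refine eq_bot_iff.2 ?_
    intro x hx
    have hx' : x.1 ∈ (Fil d a l (m * ∑ i, l i + 1) m).map φ := hx
    rw [Fil_bot a l m _ (Nat.lt_succ_self _), Submodule.map_bot, Submodule.mem_bot] at hx'
    rw [Submodule.mem_bot]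
    exact Subtype.ext hx'
  have key := hTF k U (F lam) (F mu) (hanti lam) (hanti mu) (hzero lam) (hzero mu)
    (m * ∑ i, lam i) (m * ∑ i, mu i) (hbot lam) (hbot mu) (m * ∑ i, (lam i + mu i))
  unfold Ssum
  refine le_trans (Finset.sum_le_sum fun t _ => ?_)
    (key.trans (le_of_eq (congrArg₂ (· + ·)
      (Finset.sum_congr rfl fun t _ => hF lam t) (Finset.sum_congr rfl fun t _ => hF mu t))))
  have hsub : (Fil d a (fun i => lam i + mu i) t m).map φ ≤
      (⨆ i : Fin (t + 1), F lam i ⊓ F mu (t - i) : Submodule k U).map U.subtype := by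
    rw [Fil, Submodule.map_span]
    refine Submodule.span_le.2 ?_
    rintro _ ⟨f, ⟨α, g, h1, h2, h3, rfl⟩, rfl⟩
    have hmem : (∏ i, Nl d (a i) ^ α i) * g ∈ Rm k d n m := gen_mem a α m g h1 h3
    have hmemU : φ ((∏ i, Nl d (a i) ^ α i) * g) ∈ U := Submodule.mem_map_of_mem hmem
    refine Submodule.mem_map.2 ⟨⟨_, hmemU⟩, ?_, rfl⟩
    have h4 : t ≤ ∑ i, α i * lam i + ∑ i, α i * mu i := by
      refine h2.trans (le_of_eq ?_)
      rw [← Finset.sum_add_distrib]
      exact Finset.sum_congr rfl fun i _ => Nat.mul_add _ _ _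
    have h5 : min (∑ i, α i * lam i) t < t + 1 := by omega
    refine (le_iSup (fun i : Fin (t + 1) => F lam i ⊓ F mu (t - i))
      ⟨min (∑ i, α i * lam i) t, h5⟩) ⟨?_, ?_⟩
    · change φ ((∏ i, Nl d (a i) ^ α i) * g) ∈
        (Fil d a lam (min (∑ i, α i * lam i) t) m).map φ
      refine Submodule.mem_map_of_mem (Submodule.subset_span ⟨α, g, h1, ?_, h3, rfl⟩)
      exact min_le_left _ _
    · change φ ((∏ i, Nl d (a i) ^ α i) * g) ∈
        (Fil d a mu (t - min (∑ i, α i * lam i) t) m).map φ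
      refine Submodule.mem_map_of_mem (Submodule.subset_span ⟨α, g, h1, ?_, h3, rfl⟩)
      omega
  refine (Submodule.finrank_mono hsub).trans ?_
  exact le_of_eq (Submodule.finrank_map_subtype_eq U _)

end Pool.Agent.Helper27.Ru
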